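import Pool.Agent.Lib_helper72.TM32.E3a
import Pool.Agent.Lib_helper72.TM32.Ded
import Pool.Prelude.Def_F_25f10a9b

/-!
# Project PQ (MP_05dcdc_nt): Tunnell's number at products of two primes, definitions
-/

set_option autoImplicit false

namespace Pool.Agent.PQ

open Finset Pool.Agent.TM32

/-- Tunnell's number `2|A_n| - |B_n|` -/
noncomputable def c (n : ℕ) : ℤ := 2 * ((N9003ba20.A n).ncard : ℤ) - ((N9003ba20.B n).ncard : ℤ)

/-- `p ≡ 1`, `q ≡ 3 mod 4` primes with `p q ≡ 3 mod 8` -/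
def Pair (p q : ℕ) : Prop := p.Prime ∧ q.Prime ∧ p % 4 = 1 ∧ q % 4 = 3 ∧ (p * q) % 8 = 3

/-- the class number of `ℤ[√-n]` -/
noncomputable def h (n : ℕ) [NeZero n] : ℕ := Nat.card (ClassGroup (Zsqrtd (-(n : ℤ))))

/-- `C` is the class of the ideal `{x + y √-n : m ∣ x + r y}` of norm `m`, `m` prime to `2n` -/
def Rp (n : ℕ) [NeZero n] (C : ClassGroup (Od n)) (m : ℕ) (r : ℤ) : Prop :=
  0 < m ∧ Nat.Coprime m (2 * n) ∧ (m : ℤ) ∣ r ^ 2 + n ∧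
    ∃ (I : Ideal (Od n)) (hI : TM32.Inv I), (∀ z : Od n, z ∈ I ↔ (m : ℤ) ∣ z.re + r * z.im) ∧ mkI I hI = C

/-- `q` is a fourth power modulo `p` -/
def Pow4 (q p : ℕ) : Prop := ∃ x : ZMod p, x ^ 4 = (q : ZMod p)

/-- `q` is a square modulo `p` -/
def Pow2 (q p : ℕ) : Prop := ∃ x : ZMod p, x ^ 2 = (q : ZMod p)

/-- `e(p)`: `p ≡ 5 mod 8`, or `16` does not divide `c(p)` -/
def Ex (p : ℕ) : Prop := p % 8 = 5 ∨ ¬ (16 : ℤ) ∣ c p

/-- the primes up to `x` -/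
def prm (x : ℕ) : Finset ℕ := (Icc 1 x).filter Nat.Prime

/-- the bilinear sum over the primes `p`, `q` with `p q ≤ X` -/
noncomputable def BS (X : ℕ) (χ : (p : ℕ) → DirichletCharacter ℂ p) (α β : ℕ → ℂ) : ℂ :=
  ∑ p ∈ prm X, ∑ q ∈ prm (X / p), α p * β q * χ p (q : ZMod p)

/-- the numbers `n ≤ X`, `n ≡ 3 mod 8`, which are products of two primes -/
def TP (X : ℕ) : Finset ℕ :=
  (Icc 1 X).filter (fun n => n % 8 = 3 ∧ n.primeFactorsList.length = 2)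

end Pool.Agent.PQ
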